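import Pool.Agent.Work.MP_326c77_gt.LieMain

set_option autoImplicit false

open Pool.Agent.Work.MP_326c77_gt
open Pool.Agent.Work.MP_326c77_gt.LieDefs
open scoped ENNReal NNReal Manifold ContDiff

namespace Pool.Agent.Results.MP_326c77_gt.EGSConjectureLieGroups

/-- **The EGS conjecture** (Eldredge, Gordina, Saloff-Coste): for every compact connected Lie group
`G` the quantity `λ₁(G, g) diam(G, g)²` is bounded uniformly over all left-invariant Riemannian
metrics `g` on `G`, that is, over all inner products `g` on the Lie algebra of `G`. -/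
theorem result {E : Type*} [NormedAddCommGroup E] [NormedSpace ℝ E] [FiniteDimensional ℝ E]
    {H : Type*} [TopologicalSpace H] (I : ModelWithCorners ℝ E H) [I.Boundaryless]
    (G : Type*) [TopologicalSpace G] [ChartedSpace H G] [Group G] [LieGroup I ∞ G]
    [T2Space G] [CompactSpace G] [ConnectedSpace G] :
    ∃ C : ℝ≥0, ∀ g : InnerProductSpace.Core ℝ (GroupLieAlgebra I G),
      lambda1 g * diameter g ^ 2 ≤ C :=
  LG.egs_lie I

end Pool.Agent.Results.MP_326c77_gt.EGSConjectureLieGroups
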